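import Pool.Agent.Helper2.NNQ.DimStm

/-!
# Part FF: a separated family of good balls with lower and upper counting bounds
-/

set_option autoImplicit false

open MeasureTheory Filter Topology Finset
open scoped Real

namespace Pool.Agent.Helper19.NNQ

open Pool.Agent.Helper2.NNQ

theorem reg_sub {g : ℝ → ℝ} {σ A B a b : ℝ} (h : Reg g σ A B) (ha : A ≤ a) (hb : b ≤ B) :
    Reg g σ a b :=
  ⟨h.pos, fun x y h1 h2 h3 => h.lo x y (ha.trans h1) h2 (h3.trans hb),
    fun x y h1 h2 h3 => h.hi x y (ha.trans h1) h2 (h3.trans hb)⟩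

theorem upp {g : ℝ → ℝ} {σ a b : ℝ} (h : Reg g σ a b) {z w : ℝ} (hz : a ≤ z) (hzw : z ≤ w)
    (hw : w ≤ b) :
    σ * (w - z) * Real.exp (g a) ≤ Real.exp (g w) - Real.exp (g z) := by
  have h1 := h.lo z w hz hzw hw
  have h2 := h.lo a z le_rfl hz (hzw.trans hw)
  have h3 : 0 ≤ σ * (z - a) := mul_nonneg h.pos.le (by linarith)
  have h4 : Real.exp (g a) ≤ Real.exp (g z) := Real.exp_le_exp.2 (by linarith)
  have h5 : Real.exp (g w) = Real.exp (g z) * Real.exp (g w - g z) := by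
    rw [← Real.exp_add]
    congr 1
    ring
  have h6 : 1 + (g w - g z) ≤ Real.exp (g w - g z) := by
    have := Real.add_one_le_exp (g w - g z)
    linarith
  have h7 : 0 ≤ σ * (w - z) := mul_nonneg h.pos.le (by linarith)
  have h8 := Real.exp_pos (g z)
  rw [h5]
  have e1 := mul_le_mul_of_nonneg_left h4 h7
  have e2 := mul_le_mul_of_nonneg_left h6 h8.le
  have e3 := mul_le_mul_of_nonneg_left h1 h8.le
  nlinarith

theorem low {g : ℝ → ℝ} {σ a b : ℝ} (h : Reg g σ a b) {z w : ℝ} (hz : a ≤ z) (hzw : z ≤ w)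
    (hw : w ≤ b) :
    Real.exp (g w) - Real.exp (g z) ≤ 2 * σ * (w - z) * Real.exp (g b) := by
  have h1 := h.hi z w hz hzw hw
  have h2 := h.lo w b (hz.trans hzw) hw le_rfl
  have h3 : 0 ≤ σ * (b - w) := mul_nonneg h.pos.le (by linarith)
  have h4 : Real.exp (g w) ≤ Real.exp (g b) := Real.exp_le_exp.2 (by linarith)
  have h5 : Real.exp (g z) = Real.exp (g w) * Real.exp (g z - g w) := by
    rw [← Real.exp_add]
    congr 1
    ring
  have h6 : 1 + (g z - g w) ≤ Real.exp (g z - g w) := by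
    have := Real.add_one_le_exp (g z - g w)
    linarith
  have h7 : 0 ≤ 2 * σ * (w - z) := mul_nonneg (by linarith [h.pos]) (by linarith)
  have h8 := Real.exp_pos (g w)
  rw [h5]
  have e1 := mul_le_mul_of_nonneg_left h4 h7
  have e2 := mul_le_mul_of_nonneg_left h6 h8.le
  have e3 := mul_le_mul_of_nonneg_left h1 h8.le
  nlinarith

theorem cont {g : ℝ → ℝ} {σ a b : ℝ} (h : Reg g σ a b) : ContinuousOn g (Set.Icc a b) := by
  have h0 : (0 : ℝ) ≤ 2 * σ := by linarith [h.pos]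
  have key : ∀ x y : ℝ, a ≤ x → x ≤ y → y ≤ b → |g x - g y| ≤ 2 * σ * |x - y| := by
    intro x y hx hxy hy
    have h1 := h.lo x y hx hxy hy
    have h2 := h.hi x y hx hxy hy
    have h3 : 0 ≤ σ * (y - x) := mul_nonneg h.pos.le (by linarith)
    rw [abs_sub_comm (g x), abs_sub_comm x, abs_of_nonneg (by linarith : 0 ≤ g y - g x),
      abs_of_nonneg (by linarith : 0 ≤ y - x)]
    exact h2
  have : LipschitzOnWith (Real.toNNReal (2 * σ)) g (Set.Icc a b) := by
    refine LipschitzOnWith.of_dist_le_mul fun x hx y hy => ?_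
    rw [Real.coe_toNNReal _ h0, Real.dist_eq, Real.dist_eq]
    rcases le_total x y with hxy | hxy
    · exact key x y hx.1 hxy hy.2
    · rw [abs_sub_comm (g x), abs_sub_comm x]
      exact key y x hy.1 hxy hx.2
  exact this.continuousOn

theorem inv_ex {g : ℝ → ℝ} {σ a b : ℝ} (h : Reg g σ a b) (hab : a ≤ b) :
    ∃ i : ℝ → ℝ, ∀ t, Real.exp (g a) ≤ t → t ≤ Real.exp (g b) →
      a ≤ i t ∧ i t ≤ b ∧ Real.exp (g (i t)) = t := by
  have hc : ContinuousOn (fun x => Real.exp (g x)) (Set.Icc a b) :=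
    Real.continuous_exp.comp_continuousOn (cont h)
  have h1 := intermediate_value_Icc hab hc
  have h2 : ∀ t, ∃ s, Real.exp (g a) ≤ t → t ≤ Real.exp (g b) →
      a ≤ s ∧ s ≤ b ∧ Real.exp (g s) = t := by
    intro t
    by_cases ht : Real.exp (g a) ≤ t ∧ t ≤ Real.exp (g b)
    · obtain ⟨s, hs, hs'⟩ := h1 ⟨ht.1, ht.2⟩
      exact ⟨s, fun _ _ => ⟨hs.1, hs.2, hs'⟩⟩
    · exact ⟨0, fun h h' => absurd ⟨h, h'⟩ ht⟩
  choose i hi using h2
  exact ⟨i, hi⟩

theorem lt_of_f {g : ℝ → ℝ} {σ a b : ℝ} (h : Reg g σ a b) {z w : ℝ} (hwa : a ≤ w) (hzb : z ≤ b)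
    (hf : Real.exp (g z) < Real.exp (g w)) : z < w := by
  by_contra hn
  push Not at hn
  have h1 := h.lo w z hwa hn hzb
  have h2 : 0 ≤ σ * (z - w) := mul_nonneg h.pos.le (by linarith)
  have h3 := Real.exp_lt_exp.1 hf
  linarith

theorem le_of_f {g : ℝ → ℝ} {σ a b : ℝ} (h : Reg g σ a b) {z w : ℝ} (hwa : a ≤ w) (hzb : z ≤ b)
    (hf : Real.exp (g z) ≤ Real.exp (g w)) : z ≤ w := by
  by_contra hn
  push Not at hn
  have h1 := h.lo w z hwa hn.le hzb
  have h2 : 0 < σ * (z - w) := mul_pos h.pos (by linarith)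
  have h3 := Real.exp_le_exp.1 hf
  linarith

theorem f_lt {g : ℝ → ℝ} {σ a b : ℝ} (h : Reg g σ a b) {z w : ℝ} (hz : a ≤ z) (hw : w ≤ b)
    (hzw : z < w) : Real.exp (g z) < Real.exp (g w) := by
  have h1 := h.lo z w hz hzw.le hw
  have h2 : 0 < σ * (w - z) := mul_pos h.pos (by linarith)
  exact Real.exp_lt_exp.2 (by linarith)

theorem f_le {g : ℝ → ℝ} {σ a b : ℝ} (h : Reg g σ a b) {z w : ℝ} (hz : a ≤ z) (hw : w ≤ b)
    (hzw : z ≤ w) : Real.exp (g z) ≤ Real.exp (g w) := by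
  have h1 := h.lo z w hz hzw hw
  have h2 : 0 ≤ σ * (w - z) := mul_nonneg h.pos.le (by linarith)
  exact Real.exp_le_exp.2 (by linarith)

/-- The family of balls. -/
theorem family (k : ℤ) {g : ℝ → ℝ} {σ a b r : ℝ} (h : Reg g σ a b) (hab : a ≤ b)
    (h2 : Real.exp (g b) ≤ 2 * Real.exp (g a)) (hr : r = 1 / (8 * σ * Real.exp (g b))) :
    ∃ F : Finset ℝ, (∀ y ∈ F, ∀ z, |z - y| ≤ r → a ≤ z ∧ z ≤ b ∧ z ∈ PP g k) ∧
      (∀ y ∈ F, ∀ z ∈ F, y ≠ z → 4 * r ≤ |y - z|) ∧
      volume.real (PP g k ∩ Set.Icc a b) ≤ 16 * r * F.card + 32 * r := by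
  classical
  obtain ⟨i, hi⟩ := inv_ex h hab
  have hσ := h.pos
  have hfa := Real.exp_pos (g a)
  have hfb := Real.exp_pos (g b)
  have hr0 : 0 < r := by rw [hr]; positivity
  have hr1 : r * (8 * σ * Real.exp (g b)) = 1 := by
    rw [hr]; field_simp
  -- the two estimates
  have hup : ∀ z w, a ≤ z → z ≤ w → w ≤ b → Real.exp (g w) - Real.exp (g z) ≤ 1 →
      w - z ≤ 16 * r := by
    intro z w hz hzw hw h1
    have e1 := upp h hz hzw hw
    have e2 : 0 ≤ σ * (w - z) := mul_nonneg hσ.le (by linarith)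
    have e3 := mul_le_mul_of_nonneg_left h2 e2
    by_contra hn
    push Not at hn
    have e4 : 0 < σ * Real.exp (g b) := by positivity
    have e5 := mul_lt_mul_of_pos_left hn e4
    nlinarith
  have hlo : ∀ z w, a ≤ z → z ≤ w → w ≤ b → 1 ≤ Real.exp (g w) - Real.exp (g z) →
      4 * r ≤ w - z := by
    intro z w hz hzw hw h1
    have e1 := low h hz hzw hw
    by_contra hn
    push Not at hn
    have e4 : 0 < σ * Real.exp (g b) := by positivity
    have e5 := mul_lt_mul_of_pos_left hn e4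
    nlinarith
  set V : Finset ℤ := (Finset.Icc ⌈Real.exp (g a)⌉ (⌊Real.exp (g b)⌋ - 1)).filter
    (fun v => (v + k).toNat.Prime) with hV
  have hVm : ∀ v : ℤ, v ∈ V ↔ Real.exp (g a) ≤ v ∧ (v : ℝ) + 1 ≤ Real.exp (g b) ∧
      (v + k).toNat.Prime := by
    intro v
    rw [hV, Finset.mem_filter, Finset.mem_Icc, Int.ceil_le, and_assoc]
    have : v ≤ ⌊Real.exp (g b)⌋ - 1 ↔ (v : ℝ) + 1 ≤ Real.exp (g b) := by
      rw [le_sub_iff_add_le, Int.le_floor]
      push_cast
      rfl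
    rw [this]
  have hI : ∀ v ∈ V, a ≤ i v ∧ i v ≤ i (v + 1) ∧ i (v + 1) ≤ b ∧ Real.exp (g (i v)) = v ∧
      Real.exp (g (i (v + 1))) = v + 1 ∧ 4 * r ≤ i (v + 1) - i v ∧ i (v + 1) - i v ≤ 16 * r := by
    intro v hv
    obtain ⟨h3, h4, -⟩ := (hVm v).1 hv
    obtain ⟨a1, a2, a3⟩ := hi v h3 (by linarith)
    obtain ⟨b1, b2, b3⟩ := hi (v + 1) (by linarith) h4
    have c1 : i v ≤ i (v + 1) := le_of_f h b1 a2 (by rw [a3, b3]; linarith)
    exact ⟨a1, c1, b2, a3, b3, hlo _ _ a1 c1 b2 (by rw [a3, b3]; linarith),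
      hup _ _ a1 c1 b2 (by rw [a3, b3]; linarith)⟩
  have hS : ∀ v ∈ V, ∀ w ∈ V, v < w →
      4 * r ≤ (i w + i (w + 1)) / 2 - (i v + i (v + 1)) / 2 := by
    intro v hv w hw hvw
    obtain ⟨a1, a2, a3, a4, a5, a6, a7⟩ := hI v hv
    obtain ⟨b1, b2, b3, b4, b5, b6, b7⟩ := hI w hw
    have e : (v : ℝ) + 1 ≤ w := by exact_mod_cast hvw
    have c1 : i (v + 1) ≤ i w := le_of_f h b1 a3 (by rw [a5, b4]; exact e)
    linarith
  have hinj : Set.InjOn (fun v : ℤ => (i v + i (v + 1)) / 2) (V : Set ℤ) := by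
    intro v hv w hw hvw
    rcases lt_trichotomy v w with h' | h' | h'
    · have := hS v hv w hw h'
      simp only at hvw
      linarith
    · exact h'
    · have := hS w hw v hv h'
      simp only at hvw
      linarith
  refine ⟨V.image (fun v : ℤ => (i v + i (v + 1)) / 2), ?_, ?_, ?_⟩
  · intro y hy z hz
    obtain ⟨v, hv, rfl⟩ := Finset.mem_image.1 hy
    obtain ⟨a1, a2, a3, a4, a5, a6, a7⟩ := hI v hv
    rw [abs_le] at hz
    have c1 : i v ≤ z := by linarith [hz.1]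
    have c2 : z < i (v + 1) := by linarith [hz.2]
    refine ⟨a1.trans c1, c2.le.trans a3, ?_⟩
    have d1 := f_le h a1 (c2.le.trans a3) c1
    have d2 := f_lt h (a1.trans c1) a3 c2
    rw [a4] at d1
    rw [a5] at d2
    show (⌊Real.exp (g z)⌋ + k).toNat.Prime
    rw [Int.floor_eq_iff.2 ⟨d1, d2⟩]
    exact ((hVm v).1 hv).2.2
  · intro y hy z hz hne
    obtain ⟨v, hv, rfl⟩ := Finset.mem_image.1 hy
    obtain ⟨w, hw, rfl⟩ := Finset.mem_image.1 hz
    rcases lt_trichotomy v w with h' | h' | h'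
    · have := hS v hv w hw h'
      rw [abs_sub_comm]
      exact this.trans (le_abs_self _)
    · exact absurd (by rw [h']) hne
    · have := hS w hw v hv h'
      exact this.trans (le_abs_self _)
  · rw [Finset.card_image_of_injOn hinj]
    have hsub : PP g k ∩ Set.Icc a b ⊆ ((⋃ v ∈ V, Set.Icc (i v) (i (v + 1))) ∪
        Set.Icc a (a + 16 * r)) ∪ Set.Icc (b - 16 * r) b := by
      rintro z ⟨hz, hza, hzb⟩
      have hz' : (⌊Real.exp (g z)⌋ + k).toNat.Prime := hz
      have f1 := Int.floor_le (Real.exp (g z))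
      have f2 := Int.lt_floor_add_one (Real.exp (g z))
      by_cases h3 : Real.exp (g a) ≤ (⌊Real.exp (g z)⌋ : ℝ)
      · by_cases h4 : (⌊Real.exp (g z)⌋ : ℝ) + 1 ≤ Real.exp (g b)
        · refine Or.inl (Or.inl ?_)
          have hv : ⌊Real.exp (g z)⌋ ∈ V := (hVm _).2 ⟨h3, h4, hz'⟩
          obtain ⟨a1, a2, a3, a4, a5, a6, a7⟩ := hI _ hv
          rw [Set.mem_iUnion₂]
          exact ⟨_, hv, le_of_f h hza (a2.trans a3) (by rw [a4]; exact f1),
            le_of_f h (a1.trans a2) hzb (by rw [a5]; exact f2.le)⟩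
        · push Not at h4
          refine Or.inr ⟨?_, hzb⟩
          have := hup z b hza hzb le_rfl (by linarith)
          linarith
      · push Not at h3
        refine Or.inl (Or.inr ⟨hza, ?_⟩)
        have := hup a z le_rfl hza hzb (by linarith)
        linarith
    have hfin : ∀ s : Set ℝ, Bornology.IsBounded s → volume s ≠ ⊤ := fun s hs =>
      hs.measure_lt_top.ne
    have hb0 : Bornology.IsBounded ((⋃ v ∈ V, Set.Icc (i v) (i (v + 1)))) := by
      refine (Metric.isBounded_Icc a b).subset ?_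
      intro z hz
      rw [Set.mem_iUnion₂] at hz
      obtain ⟨v, hv, hz⟩ := hz
      obtain ⟨a1, a2, a3, a4, a5, a6, a7⟩ := hI v hv
      exact ⟨a1.trans hz.1, hz.2.trans a3⟩
    have m1 : volume.real (PP g k ∩ Set.Icc a b) ≤
        volume.real (((⋃ v ∈ V, Set.Icc (i v) (i (v + 1))) ∪
        Set.Icc a (a + 16 * r)) ∪ Set.Icc (b - 16 * r) b) :=
      measureReal_mono hsub (hfin _ ((hb0.union (Metric.isBounded_Icc _ _)).union
        (Metric.isBounded_Icc _ _)))
    have m2 := measureReal_union_le (μ := volume) ((⋃ v ∈ V, Set.Icc (i v) (i (v + 1))) ∪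
        Set.Icc a (a + 16 * r)) (Set.Icc (b - 16 * r) b)
    have m3 := measureReal_union_le (μ := volume) (⋃ v ∈ V, Set.Icc (i v) (i (v + 1)))
        (Set.Icc a (a + 16 * r))
    have m4 : volume.real (⋃ v ∈ V, Set.Icc (i v) (i (v + 1))) ≤
        ∑ v ∈ V, volume.real (Set.Icc (i v) (i (v + 1))) := measureReal_biUnion_finset_le _ _
    have m5 : ∑ v ∈ V, volume.real (Set.Icc (i v) (i (v + 1))) ≤ ∑ v ∈ V, 16 * r := by
      refine Finset.sum_le_sum fun v hv => ?_
      obtain ⟨a1, a2, a3, a4, a5, a6, a7⟩ := hI v hv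
      rw [Real.volume_real_Icc_of_le a2]
      exact a7
    rw [Finset.sum_const, nsmul_eq_mul] at m5
    have m6 : volume.real (Set.Icc a (a + 16 * r)) = 16 * r := by
      rw [Real.volume_real_Icc_of_le (by linarith)]
      ring
    have m7 : volume.real (Set.Icc (b - 16 * r) b) = 16 * r := by
      rw [Real.volume_real_Icc_of_le (by linarith)]
      ring
    linarith

/-- The upper bound from separated balls. -/
theorem balls_le {P : Set ℝ} {r p q : ℝ} (hr : 0 < r) (G : Finset ℝ)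
    (hG : ∀ y ∈ G, ∀ z, |z - y| ≤ r → z ∈ P ∧ p ≤ z ∧ z ≤ q)
    (hs : ∀ y ∈ G, ∀ z ∈ G, y ≠ z → 4 * r ≤ |y - z|) :
    2 * r * G.card ≤ volume.real (P ∩ Set.Icc p q) := by
  have h1 : volume.real (⋃ y ∈ G, Metric.closedBall y r) = ∑ y ∈ G, volume.real
      (Metric.closedBall y r) := by
    refine measureReal_biUnion_finset ?_ (fun y _ => measurableSet_closedBall) ?_
    · intro y hy z hz hne
      refine Set.disjoint_left.2 fun w hw hw' => ?_
      rw [Metric.mem_closedBall, Real.dist_eq] at hw hw'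
      have h3 := hs y hy z hz hne
      have h4 : |y - z| ≤ |w - z| + |w - y| := by
        have := abs_sub_le y w z
        rw [abs_sub_comm y w] at this
        linarith
      linarith
    · intro y _
      exact measure_closedBall_lt_top.ne
  have h2 : ∑ y ∈ G, volume.real (Metric.closedBall y r) = 2 * r * G.card := by
    rw [Finset.sum_congr rfl (fun y _ => Real.volume_real_closedBall hr.le), Finset.sum_const,
      nsmul_eq_mul]
    ring
  rw [← h2, ← h1]
  refine measureReal_mono ?_ ?_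
  · intro z hz
    rw [Set.mem_iUnion₂] at hz
    obtain ⟨y, hy, hz⟩ := hz
    rw [Metric.mem_closedBall, Real.dist_eq] at hz
    obtain ⟨a1, a2, a3⟩ := hG y hy z hz
    exact ⟨a1, a2, a3⟩
  · exact ((measure_mono Set.inter_subset_right).trans_lt
      (Metric.isBounded_Icc p q).measure_lt_top).ne

/-- COVER as a bound of the measure. -/
theorem cover_measure {C : ℝ} (hC : ∀ (k : ℤ) (g : ℝ → ℝ) (σ a b : ℝ), Reg g σ a b → a < b →
    4 ≤ min 1 (σ * (b - a)) * Real.exp (g a) → ∃ T : Finset (ℝ × ℝ),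
    (∀ p ∈ T, a ≤ p.2 ∧ p.2 ≤ p.1 ∧ p.1 + 1 / (σ * Real.exp (g p.2)) ≤ b) ∧
    PP g k ∩ Set.Icc a b ⊆ ⋃ p ∈ T, Set.Icc p.1 (p.1 + 1 / (σ * Real.exp (g p.2))) ∧
    ∑ p ∈ T, 1 / (σ * Real.exp (g p.2)) ≤ C * (b - a) /
      Real.log (min 1 (σ * (b - a)) * Real.exp (g a)))
    (k : ℤ) {g : ℝ → ℝ} {σ a b : ℝ} (h : Reg g σ a b) (hab : a < b)
    (h4 : 4 ≤ min 1 (σ * (b - a)) * Real.exp (g a)) :
    volume.real (PP g k ∩ Set.Icc a b) ≤ C * (b - a) /
      Real.log (min 1 (σ * (b - a)) * Real.exp (g a)) := by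
  obtain ⟨T, h1, h2, h3⟩ := hC k g σ a b h hab h4
  refine le_trans ?_ h3
  have hσ := h.pos
  have m0 : Bornology.IsBounded (⋃ p ∈ T, Set.Icc p.1 (p.1 + 1 / (σ * Real.exp (g p.2)))) := by
    refine (Metric.isBounded_Icc a b).subset ?_
    intro z hz
    rw [Set.mem_iUnion₂] at hz
    obtain ⟨p, hp, hz⟩ := hz
    obtain ⟨a1, a2, a3⟩ := h1 p hp
    exact ⟨(a1.trans a2).trans hz.1, hz.2.trans a3⟩
  refine (measureReal_mono h2 m0.measure_lt_top.ne).trans ?_
  refine (measureReal_biUnion_finset_le _ _).trans ?_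
  refine Finset.sum_le_sum fun p _ => ?_
  have : 0 < 1 / (σ * Real.exp (g p.2)) := by positivity
  rw [Real.volume_real_Icc_of_le (by linarith)]
  linarith

theorem asym {c ρ Y₀ : ℝ} (hc : 0 < c) (hρ : 0 < ρ) : ∀ᶠ n : ℕ in atTop,
    Y₀ ≤ 1 / 2 * ((n : ℝ) * Real.log n) ∧ 16 ≤ (n : ℝ) * Real.log n ∧
    ((n : ℝ) * Real.log n) * Real.exp (-(1 / 2 * ((n : ℝ) * Real.log n))) ≤ c * ρ / 64 ∧
    Real.exp (-(1 / 4 * ((n : ℝ) * Real.log n))) ≤ 2 * ρ := by
  have hL : Tendsto (fun n : ℕ => (n : ℝ) * Real.log n) atTop atTop :=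
    tendsto_natCast_atTop_atTop.atTop_mul_atTop₀
      (Real.tendsto_log_atTop.comp tendsto_natCast_atTop_atTop)
  have hL2 : Tendsto (fun n : ℕ => 1 / 2 * ((n : ℝ) * Real.log n)) atTop atTop :=
    hL.const_mul_atTop (by norm_num)
  have hL4 : Tendsto (fun n : ℕ => 1 / 4 * ((n : ℝ) * Real.log n)) atTop atTop :=
    hL.const_mul_atTop (by norm_num)
  have h1 := (Real.tendsto_pow_mul_exp_neg_atTop_nhds_zero 1).comp hL2
  have h2 := Real.tendsto_exp_neg_atTop_nhds_zero.comp hL4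
  filter_upwards [hL2.eventually_ge_atTop Y₀, hL.eventually_ge_atTop 16,
    h1.eventually_lt_const (show (0 : ℝ) < c * ρ / 128 by positivity),
    h2.eventually_lt_const (show (0 : ℝ) < 2 * ρ by positivity)] with n e1 e2 e3 e4
  refine ⟨e1, e2, ?_, e4.le⟩
  simp only [Function.comp_apply, pow_one] at e3
  nlinarith

theorem four_le {L : ℝ} (h : 16 ≤ L) : 4 ≤ Real.exp (1 / 8 * L) := by
  have t1 : (2 : ℝ) ≤ Real.exp 1 := by
    have := Real.add_one_le_exp (1 : ℝ)
    linarith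
  have t3 : Real.exp (1 + 1) ≤ Real.exp (1 / 8 * L) := Real.exp_le_exp.2 (by linarith)
  refine le_trans ?_ t3
  rw [Real.exp_add]
  calc (4 : ℝ) = 2 * 2 := by norm_num
    _ ≤ Real.exp 1 * Real.exp 1 := mul_le_mul t1 t1 (by norm_num) (Real.exp_pos _).le

theorem fin_alg {r c C l L : ℝ} (hr : 0 < r) (hL : 0 < L)
    (h : 2 * r * c ≤ C * (2 * l) / (1 / 8 * L)) : c ≤ 8 * C * l / (r * L) := by
  rw [le_div_iff₀ (by positivity)] at h ⊢
  nlinarith

theorem exp_le_min {L d y : ℝ} (h : 16 ≤ L) (h1 : Real.exp (-(1 / 4 * L)) ≤ d)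
    (h2 : 1 / 2 * L ≤ y) : Real.exp (1 / 8 * L) ≤ min 1 (2 / 3 * d) * Real.exp y := by
  have t1 : 2 / 3 * Real.exp (-(1 / 4 * L)) ≤ min 1 (2 / 3 * d) := by
    refine le_min ?_ (by linarith)
    have : Real.exp (-(1 / 4 * L)) ≤ 1 := Real.exp_le_one_iff.2 (by linarith)
    linarith
  have t2 : Real.exp (1 / 2 * L) ≤ Real.exp y := Real.exp_le_exp.2 h2
  have t3 : 2 / 3 * Real.exp (-(1 / 4 * L)) * Real.exp (1 / 2 * L) ≤
      min 1 (2 / 3 * d) * Real.exp y :=
    mul_le_mul t1 t2 (Real.exp_pos _).le (le_trans (by positivity) t1)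
  have t4 : Real.exp (-(1 / 4 * L)) * Real.exp (1 / 2 * L) =
      Real.exp (1 / 8 * L) * Real.exp (1 / 8 * L) := by
    rw [← Real.exp_add, ← Real.exp_add]
    congr 1
    ring
  have t5 := four_le h
  have t6 : Real.exp (1 / 8 * L) ≤ 2 / 3 * (Real.exp (1 / 8 * L) * Real.exp (1 / 8 * L)) := by
    nlinarith
  calc Real.exp (1 / 8 * L) ≤ 2 / 3 * (Real.exp (1 / 8 * L) * Real.exp (1 / 8 * L)) := t6
    _ = 2 / 3 * Real.exp (-(1 / 4 * L)) * Real.exp (1 / 2 * L) := by rw [← t4]; ring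
    _ ≤ _ := t3

/-- PART FF. -/
theorem t_FF (h1 : S_COVER) (h2 : S_LP) : S_FF := by
  obtain ⟨C, hC, hcov⟩ := h1
  obtain ⟨c, hc, hLP⟩ := h2
  refine ⟨c / 32, 8 * C, by positivity, by positivity, ?_⟩
  intro k g A B hg x ρ hρ hρ4 hA hB
  obtain ⟨n₁, hn₁, hev, -⟩ := hg.ev
  have hτ : 0 < (2 / 3 : ℝ) * (2 * ρ) := by positivity
  obtain ⟨Y₀, hY₀⟩ := hLP _ k hτ
  obtain ⟨n₂, hn₂⟩ := eventually_atTop.1 (asym (Y₀ := Y₀) hc hρ)
  refine ⟨max n₁ n₂, fun n hn => ?_⟩
  obtain ⟨hreg, -, hbd⟩ := hev n ((le_max_left _ _).trans hn)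
  obtain ⟨e1, e2, e3, e4⟩ := hn₂ n ((le_max_right _ _).trans hn)
  generalize (n : ℝ) * Real.log n = L at hbd e1 e2 e3 e4 ⊢
  generalize g n = G at hreg hbd ⊢
  set a : ℝ := x - ρ with ha
  set b : ℝ := x + ρ with hb
  have hab : a < b := by rw [ha, hb]; linarith
  have hba : b - a = 2 * ρ := by rw [ha, hb]; ring
  have hregab : Reg G (2 / 3) a b := reg_sub hreg hA hB
  have hGa := hbd a ⟨hA, hab.le.trans hB⟩
  have hGb := hbd b ⟨hA.trans hab.le, hB⟩
  have hfa := Real.exp_pos (G a)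
  have hfb := Real.exp_pos (G b)
  have hdouble : Real.exp (G b) ≤ 2 * Real.exp (G a) := by
    have h3 := hregab.hi a b le_rfl hab.le le_rfl
    have h4 : G b - G a ≤ Real.log 2 := by
      have := Real.log_two_gt_d9
      rw [hba] at h3
      linarith
    have h5 : Real.exp (G b - G a) ≤ 2 := by
      rw [← Real.exp_log (show (0 : ℝ) < 2 by norm_num)]
      exact Real.exp_le_exp.2 h4
    have h6 : Real.exp (G b) = Real.exp (G b - G a) * Real.exp (G a) := by
      rw [← Real.exp_add]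
      congr 1
      ring
    rw [h6]
    exact mul_le_mul_of_nonneg_right h5 hfa.le
  obtain ⟨r, hr⟩ : ∃ r : ℝ, r = 1 / (8 * (2 / 3) * Real.exp (G b)) := ⟨_, rfl⟩
  have hr0 : 0 < r := by rw [hr]; positivity
  have hr1 : r = 3 / 16 * Real.exp (-(G b)) := by
    rw [hr, Real.exp_neg]
    field_simp
    norm_num
  have hr2 : r ≤ 3 / 16 * Real.exp (-(1 / 2 * L)) := by
    rw [hr1]
    have : Real.exp (-(G b)) ≤ Real.exp (-(1 / 2 * L)) := Real.exp_le_exp.2 (by linarith [hGb.1])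
    linarith
  have hx1 := Real.exp_pos (-(1 / 2 * L))
  have hx2 := Real.exp_pos (-(1 / 4 * L))
  have hx3 : Real.exp (-(1 / 2 * L)) ≤ Real.exp (-(1 / 4 * L)) := Real.exp_le_exp.2 (by linarith)
  obtain ⟨F, hF1, hF2, hF3⟩ := family k hregab hab.le hdouble hr
  refine ⟨r, F, hr0, by linarith, ?_, hF2, ?_, ?_⟩
  · intro y hy
    refine ⟨fun z hz => ?_, fun z hz => ?_⟩
    · rw [Metric.mem_closedBall, Real.dist_eq] at hz ⊢
      obtain ⟨a1, a2, a3⟩ := hF1 y hy z hz
      rw [abs_le]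
      constructor
      · linarith
      · linarith
    · rw [Metric.mem_closedBall, Real.dist_eq] at hz
      exact (hF1 y hy z hz).2.2
  · have h5 := hY₀ G (2 / 3) a b hregab hab (by rw [hba]) (e1.trans hGa.1)
    have h6 := h5.trans hF3
    have hGb0 : 0 < G b := by linarith [hGb.1]
    have hL0 : 0 < L := by linarith
    have h7 : c * ρ / L ≤ c * (b - a) / G b := by
      rw [div_le_div_iff₀ hL0 hGb0, hba]
      have := mul_le_mul_of_nonneg_left hGb.2 (mul_pos hc hρ).le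
      nlinarith
    have h8 : r * L ≤ c * ρ / 64 := by
      have := mul_le_mul_of_nonneg_right hr2 hL0.le
      nlinarith
    have h9 : c * ρ / L ≤ 16 * r * F.card + 32 * r := h7.trans h6
    rw [div_le_iff₀ hL0] at h9
    rw [div_le_iff₀ (by positivity)]
    nlinarith
  · intro p q hpq
    have hL0 : 0 < L := by linarith
    have hM : 2 * r ≤ q - p := by linarith
    obtain ⟨M, hMd⟩ : ∃ M : ℝ, M = q - p + 2 * r := ⟨_, rfl⟩
    have hM1 : M ≤ 2 * (q - p) := by linarith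
    have hM2 : Real.exp (-(1 / 4 * L)) ≤ M := by linarith
    obtain ⟨p', hp'⟩ : ∃ p' : ℝ, p' = max a (min (p - r) (b - M)) := ⟨_, rfl⟩
    obtain ⟨q', hq'⟩ : ∃ q' : ℝ, q' = min b (p' + M) := ⟨_, rfl⟩
    have k1 : a ≤ p' := by rw [hp']; exact le_max_left _ _
    have k2 : q' ≤ b := by rw [hq']; exact min_le_left _ _
    have k3 : q' - p' ≤ M := by
      have : q' ≤ p' + M := by rw [hq']; exact min_le_right _ _
      linarith
    have k4 : Real.exp (-(1 / 4 * L)) ≤ q' - p' := by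
      have k5 : Real.exp (-(1 / 4 * L)) ≤ b - p' := by
        rw [hp']
        rcases max_choice a (min (p - r) (b - M)) with h' | h'
        · rw [h', hba]
          exact e4
        · rw [h']
          have := min_le_right (p - r) (b - M)
          linarith
      rw [hq']
      rcases min_choice b (p' + M) with h' | h'
      · rw [h']
        exact k5
      · rw [h']
        linarith
    have k6 : p' < q' := by linarith
    have hregp : Reg G (2 / 3) p' q' := reg_sub hregab k1 k2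
    have hGp := hbd p' ⟨hA.trans k1, (k6.le.trans k2).trans hB⟩
    -- the logarithm
    have l1 : 4 ≤ Real.exp (1 / 8 * L) := four_le e2
    have l2 : Real.exp (1 / 8 * L) ≤ min 1 (2 / 3 * (q' - p')) * Real.exp (G p') :=
      exp_le_min e2 k4 hGp.1
    have l3 : 1 / 8 * L ≤ Real.log (min 1 (2 / 3 * (q' - p')) * Real.exp (G p')) := by
      have := Real.log_le_log (Real.exp_pos _) l2
      rwa [Real.log_exp] at this
    have m1 := cover_measure hcov k hregp k6 (l1.trans l2)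
    have m2 : 2 * r * ((F.filter (fun y => p ≤ y ∧ y ≤ q)).card : ℝ) ≤
        volume.real (PP G k ∩ Set.Icc p' q') := by
      refine balls_le hr0 _ ?_ ?_
      · intro y hy z hz
        obtain ⟨hyF, hy1, hy2⟩ := Finset.mem_filter.1 hy
        obtain ⟨a1, a2, a3⟩ := hF1 y hyF z hz
        rw [abs_le] at hz
        refine ⟨a3, ?_, ?_⟩
        · rw [hp']
          exact max_le a1 ((min_le_left _ _).trans (by linarith [hz.1]))
        · rw [hq']
          refine le_min a2 ?_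
          have t1 : min (p - r) (b - M) ≤ p' := by rw [hp']; exact le_max_right _ _
          rcases min_choice (p - r) (b - M) with h' | h'
          · rw [h'] at t1
            linarith [hz.2]
          · rw [h'] at t1
            linarith
      · intro y hy z hz hne
        exact hF2 y (Finset.mem_filter.1 hy).1 z (Finset.mem_filter.1 hz).1 hne
    have m3 : C * (q' - p') / Real.log (min 1 (2 / 3 * (q' - p')) * Real.exp (G p')) ≤
        C * (2 * (q - p)) / (1 / 8 * L) := by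
      refine div_le_div₀ ?_ ?_ (by positivity) l3
      · have : 0 ≤ q - p := by linarith
        positivity
      · exact mul_le_mul_of_nonneg_left (k3.trans hM1) hC.le
    exact fin_alg hr0 hL0 ((m2.trans m1).trans m3)

end Pool.Agent.Helper19.NNQ
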